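import Pool.Agent.Helper24.FF.Stmts
import Pool.Agent.Helper63.FL.IPL

/-! hf_mods LG1: ladders with two rungs with a common neighbour. -/

set_option autoImplicit false

namespace Pool.Agent.Helper24.FF

open Pool.Agent.Helper64.CT Pool.Agent.Helper64.DT Pool.Agent.Helper64.FL
open Pool.Agent.Helper64.HG (Ovl Model Circ IC HellyCircle ChordModel)
open Pool.Agent.Helper63.FL (ipt_split ipt_two ipt_one ipt_rev ipt_cons)

theorem lg1_getLast {V : Type} (A : List V) (x : V) : (A.getLast? = some x) → x ∈ A :=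
  List.mem_of_getLast?

/-- appending a last vertex -/
theorem lg1_snoc {V : Type} {G : SimpleGraph V} {L : List V} {x : V} (hL : IPt G L)
    (hx : x ∉ L) (ha : ∀ y ∈ L, (G.Adj x y ↔ L.getLast? = some y)) : IPt G (L ++ [x]) := by
  have e : L ++ [x] = (x :: L.reverse).reverse := by
    rw [List.reverse_cons, List.reverse_reverse]
  rw [e]
  apply ipt_rev
  have hR := ipt_rev G L hL
  cases hr : L.reverse with
  | nil => exact ipt_one G x
  | cons b l =>
    rw [hr] at hR
    have hlast : L.getLast? = some b := by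
      rw [List.getLast?_eq_head?_reverse, hr]; rfl
    have hmem : ∀ y, y ∈ L ↔ y ∈ b :: l := by
      intro y; rw [← hr, List.mem_reverse]
    rw [ipt_two]
    refine ⟨?_, ?_, ?_, hR⟩
    · intro y hy e'
      exact hx (e' ▸ (hmem y).2 hy)
    · exact (ha b ((hmem b).2 (by simp))).2 hlast
    · intro y hy h1
      have h2 := (ha y ((hmem y).2 (List.mem_cons_of_mem _ hy))).1 h1
      rw [hlast] at h2
      have h3 : b = y := Option.some_injective _ h2
      exact hR.1 y hy h3

/-- appending a first vertex to the reverse -/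
theorem lg1_cons {V : Type} {G : SimpleGraph V} {L : List V} {x : V} (hL : IPt G L)
    (hx : x ∉ L) (ha : ∀ y ∈ L, (G.Adj x y ↔ L.getLast? = some y)) : IPt G (x :: L.reverse) := by
  have h1 := ipt_rev G _ (lg1_snoc hL hx ha)
  rwa [List.reverse_append, List.reverse_cons, List.reverse_nil, List.nil_append,
    List.singleton_append] at h1

theorem lg1_prop (a b c d e f g : Prop) : ((a ∨ b) ∨ (c ∨ d ∨ e ∨ f ∨ g)) ↔
    ((e ∨ c ∨ d ∨ f ∨ a) ∨ (b ∨ g)) := by
  tauto

theorem lg1_core (hM0 : ST_M0) (hRUN : ST_RUN) (hRP : ST_RP) (hM7 : ST_M7) (hM5 : ST_M5)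
    (hRUB : ST_RUB) {V : Type} {G : SimpleGraph V} {h k r1 g r2 p0 c0 : V} {A1 C1 : List V}
    (hip : IPt G ((p0 :: A1).reverse ++ r1 :: g :: r2 :: c0 :: C1))
    (hhk : h ≠ k) (hnad : ¬ G.Adj h k)
    (hh : h ∉ (p0 :: A1).reverse ++ r1 :: g :: r2 :: c0 :: C1)
    (hk : k ∉ (p0 :: A1).reverse ++ r1 :: g :: r2 :: c0 :: C1)
    (h1 : G.Adj h r1) (h2 : G.Adj h r2) (k1 : G.Adj k r1) (k2 : G.Adj k r2)
    (hg : ¬ G.Adj h g) (kg : ¬ G.Adj k g)
    (hA : ∀ x ∈ p0 :: A1, (G.Adj h x ↔ (p0 :: A1).getLast? = some x))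
    (kA : ∀ x ∈ p0 :: A1, ¬ G.Adj k x)
    (hC : ∀ x ∈ c0 :: C1, ¬ G.Adj h x)
    (kC : ∀ x ∈ c0 :: C1, (G.Adj k x ↔ (c0 :: C1).getLast? = some x)) :
    CE G ({h, k} ∪ LS ((p0 :: A1).reverse ++ r1 :: g :: r2 :: c0 :: C1)) := by
  classical
  have hmem : ∀ x, x ∈ (p0 :: A1).reverse ++ r1 :: g :: r2 :: c0 :: C1 ↔
      x ∈ p0 :: A1 ∨ x = r1 ∨ x = g ∨ x = r2 ∨ x ∈ c0 :: C1 := by
    intro x
    rw [List.mem_append, List.mem_reverse, List.mem_cons (b := r1), List.mem_cons (b := g),
      List.mem_cons (b := r2)]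
  rw [hmem] at hh hk
  push Not at hh hk
  obtain ⟨hhA, hh1, hhg, hh2, hhC⟩ := hh
  obtain ⟨hkA, hk1, hkg, hk2, hkC⟩ := hk
  rw [ipt_split] at hip
  obtain ⟨i1, i2, i3⟩ := hip
  have j1 : IPt G (r1 :: p0 :: A1) := by
    have := ipt_rev G _ i1
    rwa [List.reverse_append, List.reverse_reverse, List.reverse_cons, List.reverse_nil,
      List.nil_append, List.singleton_append] at this
  rw [ipt_two] at j1
  obtain ⟨j2, j3, j4, j5⟩ := j1
  rw [ipt_two] at i2
  obtain ⟨a1, a2, a3, a4⟩ := i2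
  rw [ipt_two] at a4
  obtain ⟨b1, b2, b3, b4⟩ := a4
  rw [ipt_two] at b4
  obtain ⟨d1, d2, d3, d4⟩ := b4
  -- facts between the left part and the rest
  have lr : ∀ x ∈ p0 :: A1, ∀ y ∈ g :: r2 :: c0 :: C1, x ≠ y ∧ ¬ G.Adj x y :=
    fun x hx y hy => i3 x (List.mem_reverse.2 hx) y hy
  have hr12 : r1 ≠ r2 := a1 r2 (by simp)
  have nr12 : ¬ G.Adj r1 r2 := a3 r2 (by simp)
  have hp0r2 := lr p0 (by simp) r2 (by simp)
  have hF := (hM0 V G r1 r2 hr12 nr12).2 p0 (j2 p0 (by simp)).symm hp0r2.1 j3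
    (fun e => hp0r2.2 e.symm)
  have hIN : IPt G (p0 :: (A1 ++ [h])) := by
    rw [← List.cons_append]
    exact lg1_snoc j5 hhA hA
  have hmN : ∀ x, x ∈ A1 ++ [h] ↔ x ∈ A1 ∨ x = h := by
    intro x; rw [List.mem_append, List.mem_singleton]
  have hp0A : ∀ x ∈ A1, p0 ≠ x := j5.1
  have hR := hRUN V G {p0, r1, r2} r1 r2 p0 h (A1 ++ [h]) hF hIN
    (by
      intro x hx hx'
      simp only [Set.mem_insert_iff, Set.mem_singleton_iff] at hx'
      rcases (hmN x).1 hx with hx | hx
      · rcases hx' with e | e | e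
        · exact hp0A x hx e.symm
        · exact j2 x (List.mem_cons_of_mem _ hx) e.symm
        · exact (lr x (List.mem_cons_of_mem _ hx) r2 (by simp)).1 e
      · rw [hx] at hx'
        rcases hx' with e | e | e
        · exact hhA (e ▸ List.mem_cons_self)
        · exact hh1 e
        · exact hh2 e)
    (by
      intro x hx
      rcases (hmN x).1 hx with hx | hx
      · exact ⟨fun e => absurd e (j4 x hx),
          fun e => absurd e.symm (lr x (List.mem_cons_of_mem _ hx) r2 (by simp)).2⟩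
      · rw [hx]
        exact ⟨fun _ => h2.symm, fun _ => h1.symm⟩)
    (by
      intro x _ y hy e1 e2 e3
      simp only [Set.mem_insert_iff, Set.mem_singleton_iff] at hy
      rcases hy with e | e | e
      · exact absurd e e3
      · exact absurd e e1
      · exact absurd e e2)
    (by rw [← List.cons_append, List.getLast?_concat])
  obtain ⟨u0, u1, u2, u3, -, -, u6⟩ := hRUB V G r1 r2
  have hrg : rungs G r1 r2 (A1 ++ [h]) = 1 := by
    rw [u3, u1 h [] ⟨h1.symm, h2.symm⟩, u0, (u6 A1).2 (fun x hx e => j4 x hx e.1)]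
  have hnE : ¬ Even (rungs G r1 r2 (A1 ++ [h])) := by rw [hrg]; decide
  rw [if_neg hnE, if_neg hnE] at hR
  have hE1 := (hM7 V G _ r2 r1).1 h hR
  have hE2 := (hM7 V G _ r2 r1).2.1 hE1
  -- the vertex g
  have hS : ∀ y, y ∈ (({p0, r1, r2} : Set V) ∪ LS (A1 ++ [h])) ↔
      y ∈ p0 :: A1 ∨ y = r1 ∨ y = r2 ∨ y = h := by
    intro y
    have e1 : y ∈ LS (A1 ++ [h]) ↔ y ∈ A1 ∨ y = h := hmN y
    rw [Set.mem_union, e1]
    simp only [Set.mem_insert_iff, Set.mem_singleton_iff, List.mem_cons]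
    tauto
  have hgS : g ∉ (({p0, r1, r2} : Set V) ∪ LS (A1 ++ [h])) := by
    rw [hS]
    rintro (e | e | e | e)
    · exact (lr g e g (by simp)).1 rfl
    · exact a1 g (by simp) e.symm
    · exact b1 r2 (by simp) e
    · exact hhg e.symm
  have hE5 := (hM5 V G _ r1 r2 g hE2 hgS (by
    intro y hy
    rcases (hS y).1 hy with e | e | e | e
    · have q1 := lr y e g (by simp)
      constructor
      · intro e'; exact absurd e'.symm q1.2
      · rintro (e' | e')
        · exact absurd e'.symm (j2 y e)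
        · exact absurd e' (lr y e r2 (by simp)).1
    · rw [e]; exact ⟨fun _ => Or.inl rfl, fun _ => a2.symm⟩
    · rw [e]; exact ⟨fun _ => Or.inr rfl, fun _ => b2⟩
    · rw [e]
      constructor
      · intro e'; exact absurd e'.symm hg
      · rintro (e' | e')
        · exact absurd e' hh1
        · exact absurd e' hh2)).2
  -- the right part
  have hIN2 : IPt G (k :: (c0 :: C1).reverse) := lg1_cons d4 hkC kC
  have hmN2 : ∀ x, x ∈ k :: (c0 :: C1).reverse ↔ x = k ∨ x ∈ c0 :: C1 := by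
    intro x; rw [List.mem_cons, List.mem_reverse]
  have hlast2 : (k :: (c0 :: C1).reverse).getLast? = some c0 := by
    rw [List.reverse_cons, ← List.cons_append, List.getLast?_concat]
  have hS2 : ∀ y, y ∈ insert g (({p0, r1, r2} : Set V) ∪ LS (A1 ++ [h])) ↔
      y = g ∨ y ∈ p0 :: A1 ∨ y = r1 ∨ y = r2 ∨ y = h := by
    intro y
    rw [Set.mem_insert_iff, hS]
  have hgC : ∀ x ∈ c0 :: C1, g ≠ x ∧ ¬ G.Adj g x := fun x hx =>
    ⟨b1 x (List.mem_cons_of_mem _ hx), b3 x hx⟩
  have hr1C : ∀ x ∈ c0 :: C1, r1 ≠ x ∧ ¬ G.Adj r1 x := fun x hx =>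
    ⟨a1 x (by simp [List.mem_cons] at hx ⊢; tauto), a3 x (List.mem_cons_of_mem _ hx)⟩
  have hAC : ∀ x ∈ p0 :: A1, ∀ y ∈ c0 :: C1, x ≠ y ∧ ¬ G.Adj x y := fun x hx y hy =>
    lr x hx y (List.mem_cons_of_mem _ (List.mem_cons_of_mem _ hy))
  have hFin := hRP V G _ r1 r2 (k :: (c0 :: C1).reverse) hE5 hIN2 (by simp)
    (by
      intro x hx
      rw [hS2]
      rcases (hmN2 x).1 hx with e | e
      · rw [e]
        rintro (e' | e' | e' | e' | e')
        · exact hkg e'
        · exact hkA e'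
        · exact hk1 e'
        · exact hk2 e'
        · exact hhk e'.symm
      · rintro (e' | e' | e' | e' | e')
        · exact (hgC x e).1 e'.symm
        · exact (hAC x e' x e).1 rfl
        · exact (hr1C x e).1 e'.symm
        · exact d1 x e e'.symm
        · exact hhC (e' ▸ e))
    (by
      intro x hx y hy y1 y2 hxy
      rcases (hmN2 x).1 hx with e | e
      · rw [e] at hxy
        rcases (hS2 y).1 hy with e' | e' | e' | e' | e'
        · exact kg (e' ▸ hxy)
        · exact kA y e' hxy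
        · exact y1 e'
        · exact y2 e'
        · exact hnad (e' ▸ hxy.symm)
      · rcases (hS2 y).1 hy with e' | e' | e' | e' | e'
        · exact (hgC x e).2 (e' ▸ hxy.symm)
        · exact (hAC y e' x e).2 hxy.symm
        · exact y1 e'
        · exact y2 e'
        · exact hC x e (e' ▸ hxy.symm))
    (by
      intro x hx hxl
      rw [hlast2] at hxl
      rcases (hmN2 x).1 hx with e | e
      · rw [e]
        exact ⟨fun _ => k2.symm, fun _ => k1.symm⟩
      · have hxC : x ∈ C1 := by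
          rcases List.mem_cons.1 e with e' | e'
          · exact absurd (by rw [e']) hxl
          · exact e'
        exact ⟨fun e' => absurd e' (hr1C x e).2, fun e' => absurd e' (d3 x hxC)⟩)
    (by
      intro x hx
      rw [hlast2] at hx
      have e : c0 = x := Option.some_injective _ hx
      rw [← e]
      exact ⟨fun e' => absurd e' (hr1C c0 (by simp)).2, fun e' => absurd d2 e'⟩)
  have hset : ({h, k} : Set V) ∪ LS ((p0 :: A1).reverse ++ r1 :: g :: r2 :: c0 :: C1) =
      insert g (({p0, r1, r2} : Set V) ∪ LS (A1 ++ [h])) ∪ LS (k :: (c0 :: C1).reverse) := by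
    ext x
    have e1 : x ∈ LS ((p0 :: A1).reverse ++ r1 :: g :: r2 :: c0 :: C1) ↔
        x ∈ p0 :: A1 ∨ x = r1 ∨ x = g ∨ x = r2 ∨ x ∈ c0 :: C1 := hmem x
    have e2 : x ∈ LS (k :: (c0 :: C1).reverse) ↔ x = k ∨ x ∈ c0 :: C1 := hmN2 x
    rw [Set.mem_union, Set.mem_union, hS2, e1, e2, Set.mem_insert_iff, Set.mem_singleton_iff]
    exact lg1_prop _ _ _ _ _ _ _
  rw [hset]
  exact hFin

theorem lg1_aux (hM0 : ST_M0) (hRUN : ST_RUN) (hRP : ST_RP) (hM7 : ST_M7) (hM5 : ST_M5)
    (hRUB : ST_RUB) (hIPX : ST_IPX) {V : Type} {G : SimpleGraph V} {h k : V} {M : List V}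
    (hL : LadM G h k M true false) (h2 : rungs G h k M = 2) (hG : Gap1 G h k M) :
    CE G ({h, k} ∪ LS M) := by
  obtain ⟨i1, i2, -, -, -⟩ := hIPX V G
  obtain ⟨u0, u1, u2, u3, -, -, u6⟩ := hRUB V G h k
  obtain ⟨x, hx, y, hy, g, hgM, hxy, hhx, hkx, hhy, hky, hxg, hgy⟩ := hG
  obtain ⟨A', B', rfl⟩ := List.append_of_mem hgM
  have n1 := (i2 A' B' g x hL.ip hx).1 hxg.symm
  have n2 := (i2 A' B' g y hL.ip hy).1 hgy
  -- the two rungs around g
  obtain ⟨r1, r2, m1, m2, q1, q2, q3, q4⟩ : ∃ r1 r2, A'.getLast? = some r1 ∧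
      B'.head? = some r2 ∧ G.Adj h r1 ∧ G.Adj k r1 ∧ G.Adj h r2 ∧ G.Adj k r2 := by
    rcases n1 with n1 | n1
    · rcases n2 with n2 | n2
      · rw [n1] at n2
        exact absurd (Option.some_injective _ n2) hxy
      · exact ⟨x, y, n1, n2, hhx, hkx, hhy, hky⟩
    · rcases n2 with n2 | n2
      · exact ⟨y, x, n2, n1, hhy, hky, hhx, hkx⟩
      · rw [n1] at n2
        exact absurd (Option.some_injective _ n2) hxy
  obtain ⟨A, rfl⟩ : ∃ A, A' = A ++ [r1] := by
    refine ⟨A'.dropLast, ?_⟩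
    have hne : A' ≠ [] := by
      intro e; rw [e] at m1; simp at m1
    rw [List.getLast?_eq_some_getLast hne] at m1
    have e2 : A'.getLast hne = r1 := Option.some_injective _ m1
    conv_lhs => rw [← List.dropLast_append_getLast hne]
    rw [e2]
  obtain ⟨C, rfl⟩ : ∃ C, B' = r2 :: C := by
    cases B' with
    | nil => simp at m2
    | cons b l =>
      have : b = r2 := by simpa using m2
      exact ⟨l, by rw [this]⟩
  have eM : (A ++ [r1]) ++ g :: r2 :: C = A ++ r1 :: g :: r2 :: C := by simp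
  rw [eM] at hL h2 ⊢
  clear hx hy hgM n1 n2 m1 m2 eM hxy hhx hkx hhy hky hxg hgy i2
  -- A and C are nonempty
  have hAne : A ≠ [] := by
    intro e
    have hf := hL.fst r1 (by rw [e]; rfl)
    have := hf.2.1 q2
    simp at this
  have hCne : C ≠ [] := by
    intro e
    have hf := hL.lst r2 (by rw [e]; simp)
    have := hf.1.1 q3
    simp at this
  obtain ⟨p0, A1, hA1⟩ : ∃ p0 A1, A.reverse = p0 :: A1 := by
    cases hr : A.reverse with
    | nil => exact absurd (List.reverse_eq_nil_iff.1 hr) hAne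
    | cons p l => exact ⟨p, l, rfl⟩
  obtain ⟨c0, C1, rfl⟩ : ∃ c0 C1, C = c0 :: C1 := by
    cases C with
    | nil => exact absurd rfl hCne
    | cons c l => exact ⟨c, l, rfl⟩
  have hA2 : A = (p0 :: A1).reverse := by rw [← hA1, List.reverse_reverse]
  subst hA2
  clear hAne hCne hA1
  -- adjacencies of g
  have hip := hL.ip
  rw [ipt_split] at hip
  obtain ⟨s1, s2, s3⟩ := hip
  rw [ipt_two] at s2
  obtain ⟨a1, a2, a3, a4⟩ := s2
  have hhead : ((p0 :: A1).reverse ++ r1 :: g :: r2 :: c0 :: C1).head? = (p0 :: A1).getLast? := by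
    rw [List.head?_append, List.head?_reverse]
    have : ∃ w, (p0 :: A1).getLast? = some w := by
      rw [List.getLast?_eq_some_getLast (List.cons_ne_nil _ _)]; exact ⟨_, rfl⟩
    obtain ⟨w, hw⟩ := this
    rw [hw]; rfl
  have hlast : ((p0 :: A1).reverse ++ r1 :: g :: r2 :: c0 :: C1).getLast? =
      (c0 :: C1).getLast? := by
    rw [List.getLast?_append]
    have e1 : (r1 :: g :: r2 :: c0 :: C1).getLast? = (c0 :: C1).getLast? := by
      rw [List.getLast?_cons_cons, List.getLast?_cons_cons, List.getLast?_cons_cons]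
    rw [e1, List.getLast?_eq_some_getLast (List.cons_ne_nil _ _)]; rfl
  have hgnr : ¬ (G.Adj h g ∧ G.Adj k g) := by
    intro e
    exact hL.ind r1 (by simp) g (by simp) a2 ⟨q1, q2, e.1, e.2⟩
  have lr : ∀ x ∈ p0 :: A1, ∀ y ∈ r1 :: g :: r2 :: c0 :: C1, x ≠ y :=
    fun x hx y hy => (i1 _ _ hL.ip).2.2 x (List.mem_reverse.2 hx) y hy
  have hnA : ∀ y ∈ r1 :: g :: r2 :: c0 :: C1, (p0 :: A1).getLast? ≠ some y := by
    intro y hy e
    exact lr y (List.mem_of_getLast? e) y hy rfl
  have hgb : (G.Adj h g ↔ G.Adj k g) := by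
    refine hL.mid g (by simp) ?_ ?_
    · rw [hhead]; exact hnA g (by simp)
    · rw [hlast]
      intro e
      rw [ipt_cons] at a4
      exact a4.1 g (List.mem_cons_of_mem _ (List.mem_of_getLast? e)) rfl
  have hg : ¬ G.Adj h g := fun e => hgnr ⟨e, hgb.1 e⟩
  have kg : ¬ G.Adj k g := fun e => hgnr ⟨hgb.2 e, e⟩
  have hr : rungs G h k (p0 :: A1).reverse = 0 ∧ rungs G h k (c0 :: C1) = 0 := by
    rw [u3, u1 r1 _ ⟨q1, q2⟩, u2 g _ hgnr, u1 r2 _ ⟨q3, q4⟩] at h2
    omega
  have hA0 := (u6 _).1 hr.1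
  have hC0 := (u6 _).1 hr.2
  refine lg1_core hM0 hRUN hRP hM7 hM5 hRUB hL.ip hL.ne hL.nadj hL.hM hL.kM q1 q3 q2 q4 hg kg
    ?_ ?_ ?_ ?_
  · intro x hx
    constructor
    · intro e
      by_contra hne
      have hb : (G.Adj h x ↔ G.Adj k x) := by
        refine hL.mid x (List.mem_append_left _ (List.mem_reverse.2 hx)) ?_ ?_
        · rw [hhead]; exact hne
        · rw [hlast]
          intro e'
          exact lr x hx x (by
            have := List.mem_of_getLast? e'
            simp only [List.mem_cons] at this ⊢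
            tauto) rfl
      exact hA0 x (List.mem_reverse.2 hx) ⟨e, hb.1 e⟩
    · intro e
      exact (hL.fst x (by rw [hhead, e]; rfl)).1.2 rfl
  · intro x hx e
    by_cases hne : (p0 :: A1).getLast? = some x
    · have := (hL.fst x (by rw [hhead, hne]; rfl)).2.1 e
      simp at this
    · have hb : (G.Adj h x ↔ G.Adj k x) := by
        refine hL.mid x (List.mem_append_left _ (List.mem_reverse.2 hx)) ?_ ?_
        · rw [hhead]; exact hne
        · rw [hlast]
          intro e'
          exact lr x hx x (by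
            have := List.mem_of_getLast? e'
            simp only [List.mem_cons] at this ⊢
            tauto) rfl
      exact hA0 x (List.mem_reverse.2 hx) ⟨hb.2 e, e⟩
  · intro x hx e
    by_cases hne : (c0 :: C1).getLast? = some x
    · have := (hL.lst x (by rw [hlast, hne]; rfl)).1.1 e
      simp at this
    · have hb : (G.Adj h x ↔ G.Adj k x) := by
        refine hL.mid x (List.mem_append_right _ (by
          simp only [List.mem_cons] at hx ⊢; tauto)) ?_ ?_
        · rw [hhead]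
          exact hnA x (by simp only [List.mem_cons] at hx ⊢; tauto)
        · rw [hlast]; exact hne
      exact hC0 x hx ⟨e, hb.1 e⟩
  · intro x hx
    constructor
    · intro e
      by_contra hne
      have hb : (G.Adj h x ↔ G.Adj k x) := by
        refine hL.mid x (List.mem_append_right _ (by
          simp only [List.mem_cons] at hx ⊢; tauto)) ?_ ?_
        · rw [hhead]
          exact hnA x (by simp only [List.mem_cons] at hx ⊢; tauto)
        · rw [hlast]; exact hne
      exact hC0 x hx ⟨hb.2 e, e⟩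
    · intro e
      exact (hL.lst x (by rw [hlast, e]; rfl)).2.2 rfl

theorem st_LG1 (hM0 : ST_M0) (hRUN : ST_RUN) (hRP : ST_RP) (hM7 : ST_M7) (hM5 : ST_M5)
    (hLSY : ST_LSY) (hRUB : ST_RUB) (hIPX : ST_IPX) : ST_LG1 := by
  intro V G h k M a b hL hab h2 hG
  cases a with
  | true =>
    cases b with
    | true => exact absurd rfl hab
    | false => exact lg1_aux hM0 hRUN hRP hM7 hM5 hRUB hIPX hL h2 hG
  | false =>
    cases b with
    | false => exact absurd rfl hab
    | true =>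
      obtain ⟨e1, -, e3, -⟩ := hLSY V G h k M false true hL
      obtain ⟨-, -, -, -, -, r5, -⟩ := hRUB V G h k
      have := lg1_aux hM0 hRUN hRP hM7 hM5 hRUB hIPX e1 (by rw [r5 M]; exact h2) (e3 hG)
      have e : ({k, h} : Set V) = {h, k} := Set.pair_comm k h
      rwa [e] at this

end Pool.Agent.Helper24.FF
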